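import Pool.Agent.E8helper81.GZ.Stm
import Pool.Agent.E8helper81.VQ.Ana
import Pool.Agent.E8helper63.SZ.Pos

/-!
# Project GZ, piece GZ-B: the Dirichlet series of `τ_χ(n) - L(1, χ)` at a real zero (helper82)
-/

set_option autoImplicit false

namespace Pool.Agent.E8helper81.GZ

open Finset Pool.Agent.E8helper22.SZ Filter Topology Asymptotics MeasureTheory

namespace B82

open Pool.Agent.E8helper81.VQ (HP isOpen_HP preconn_HP)

/-- the continuation of the Dirichlet series, explicitly -/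
lemma cont {θ : ℝ} (hθ : 0 ≤ θ) (hθ1 : θ < 1) (a : ℕ → ℂ)
    (ha : (fun n : ℕ => ∑ k ∈ Icc 1 n, a k) =O[atTop] fun n : ℕ => (n : ℝ) ^ θ)
    (hs : ∀ s : ℂ, 1 < s.re → LSeriesSummable a s) :
    DifferentiableOn ℂ (fun s : ℂ => s * mellin (fun t : ℝ => ∑ k ∈ Icc 1 ⌊t⌋₊, a k) (-s)) (HP θ) ∧
      ∀ s : ℂ, 1 < s.re → LSeries a s = s * mellin (fun t : ℝ => ∑ k ∈ Icc 1 ⌊t⌋₊, a k) (-s) := by
  set A : ℝ → ℂ := fun t => ∑ k ∈ Icc 1 ⌊t⌋₊, a k with hA
  refine ⟨?_, ?_⟩
  · intro s hs1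
    have hs2 : θ < s.re := hs1
    have hloc : LocallyIntegrableOn A (Set.Ioi 0) := by
      have h1 := locallyIntegrableOn_mul_sum_Icc (𝕜 := ℂ) a (a := 0) (m := 1) le_rfl
        (g := fun _ : ℝ => (1 : ℂ)) ((MeasureTheory.locallyIntegrable_const _).locallyIntegrableOn _)
      simp only [one_mul] at h1
      exact h1.mono_set Set.Ioi_subset_Ici_self
    have htop : A =O[atTop] (fun t : ℝ => t ^ (-(-θ))) := by
      rw [neg_neg]
      have h1 := ha.comp_tendsto (tendsto_nat_floor_atTop (α := ℝ))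
      refine h1.trans ?_
      refine IsBigO.of_bound 1 ?_
      filter_upwards [eventually_ge_atTop (1 : ℝ)] with t ht
      have ht0 : 0 ≤ t := by linarith
      rw [one_mul, Function.comp_apply, Real.norm_of_nonneg (by positivity),
        Real.norm_of_nonneg (by positivity)]
      exact Real.rpow_le_rpow (by positivity) (Nat.floor_le ht0) hθ
    have hbot : A =O[𝓝[>] 0] (fun t : ℝ => t ^ (-((-s).re - 1))) := by
      have h1 : A =ᶠ[𝓝[>] 0] fun _ => (0 : ℂ) := by
        have h2 : Set.Ioo (0 : ℝ) 1 ∈ 𝓝[>] (0 : ℝ) := Ioo_mem_nhdsGT one_pos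
        filter_upwards [h2] with t ht
        have h3 : ⌊t⌋₊ = 0 := Nat.floor_eq_zero.2 ht.2
        simp only [hA, h3]
        simp
      exact h1.trans_isBigO (isBigO_zero _ _)
    have hd := mellin_differentiableAt_of_isBigO_rpow hloc htop
      (by rw [Complex.neg_re]; linarith) hbot (by linarith)
    have hd2 : DifferentiableAt ℂ (fun z : ℂ => mellin A (-z)) s := by
      have h1 : DifferentiableAt ℂ (fun z : ℂ => -z) s := differentiableAt_id.neg
      exact DifferentiableAt.comp (g := mellin A) s hd h1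
    exact (differentiableAt_id.mul hd2).differentiableWithinAt
  · intro s hs1
    rw [LSeries_eq_mul_integral a hθ (hθ1.trans hs1) (hs s hs1) ha]
    congr 1
    unfold mellin
    rw [← integral_Ici_eq_integral_Ioi]
    have h1 : ∫ t in Set.Ioi (0 : ℝ), (t : ℂ) ^ (-s - 1) • A t =
        ∫ t in Set.Ici (1 : ℝ), (t : ℂ) ^ (-s - 1) • A t := by
      refine setIntegral_eq_of_subset_of_forall_sdiff_eq_zero measurableSet_Ioi ?_ ?_
      · intro t ht
        have ht' : (1 : ℝ) ≤ t := ht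
        exact lt_of_lt_of_le one_pos ht'
      · rintro t ⟨ht1, ht2⟩
        have h3 : ⌊t⌋₊ = 0 := Nat.floor_eq_zero.2 (not_le.1 ht2)
        simp only [hA, h3]
        simp
    rw [h1]
    refine setIntegral_congr_fun measurableSet_Ici fun t _ => ?_
    show A t * (t : ℂ) ^ (-(s + 1)) = (t : ℂ) ^ (-s - 1) • A t
    rw [smul_eq_mul, mul_comm]
    congr 2
    ring

/-- the L-series of `zetaMul` -/
lemma zetaMul_series {N : ℕ} [NeZero N] (χ : DirichletCharacter ℂ N) {s : ℂ} (hs : 1 < s.re) :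
    LSeries (fun n => DirichletCharacter.zetaMul χ n) s = riemannZeta s * χ.LFunction s := by
  have h0 : LSeries (fun n => DirichletCharacter.zetaMul χ n) s =
      LSeries (↑(DirichletCharacter.zetaMul χ)) s := rfl
  rw [h0, DirichletCharacter.zetaMul, ← ArithmeticFunction.coe_mul,
    LSeries_convolution', χ.LFunction_eq_LSeries hs]
  · congr 1
    · simp_rw [← ArithmeticFunction.LSeries_zeta_eq_riemannZeta hs,
        ← ArithmeticFunction.natCoe_apply]
    · exact (LSeries_congr (fun h => χ.apply_eq_toArithmeticFunction_apply h) s).symm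
  · exact ArithmeticFunction.LSeriesSummable_zeta_iff.mpr hs
  · exact (LSeriesSummable_congr _ fun h ↦ (χ.apply_eq_toArithmeticFunction_apply h).symm).mpr <|
      ZMod.LSeriesSummable_of_one_lt_re χ hs

lemma tau_zetaMul {q : ℕ} {χ : DirichletCharacter ℂ q} (hχ : RealPrim q χ) (n : ℕ) :
    ((tau χ n : ℝ) : ℂ) = DirichletCharacter.zetaMul χ n := by
  have h1 := DirichletCharacter.zetaMul_nonneg (Pool.Agent.E8helper63.SZ.sq_one hχ) n
  rw [Pool.Agent.E8helper63.SZ.tau_eq]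
  apply Complex.ext
  · simp
  · rw [Complex.ofReal_im]
    exact (Complex.le_def.mp h1).2

/-- finite Dirichlet series -/
lemma fin_series (a : ℕ → ℂ) (y : ℕ) (s : ℂ) :
    LSeriesSummable (fun n => if n ≤ y then a n else 0) s ∧
    LSeries (fun n => if n ≤ y then a n else 0) s = ∑ k ∈ Icc 1 y, a k * (k : ℂ) ^ (-s) := by
  have h0 : ∀ n ∉ Icc 1 y, LSeries.term (fun n => if n ≤ y then a n else 0) s n = 0 := by
    intro n hn
    rcases Nat.eq_zero_or_pos n with h | h
    · rw [h, LSeries.term_zero]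
    · rw [LSeries.term_of_ne_zero h.ne']
      have : ¬ n ≤ y := fun hc => hn (Finset.mem_Icc.2 ⟨h, hc⟩)
      rw [if_neg this, zero_div]
  refine ⟨summable_of_ne_finset_zero h0, ?_⟩
  unfold LSeries
  rw [tsum_eq_sum h0]
  refine Finset.sum_congr rfl fun k hk => ?_
  rw [Finset.mem_Icc] at hk
  rw [LSeries.term_of_ne_zero (by omega), if_pos hk.2, Complex.cpow_neg, div_eq_mul_inv]

end B82

open B82 Pool.Agent.E8helper81.VQ in
theorem t_B (h : S_A) : S_B := by
  intro q _ χ hq hχ β hβ hβ1 hz y hy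
  have hne : χ ≠ 1 := by
    rintro rfl
    have h1 := hχ.prim
    rw [DirichletCharacter.isPrimitive_def, DirichletCharacter.conductor_one] at h1
    omega
  set L1 := χ.LFunction 1 with hL1
  set a : ℕ → ℂ := fun n => ((tau χ n : ℝ) : ℂ) - L1 with ha
  set c : ℕ → ℂ := fun n => if n ≤ y then a n else 0 with hc
  set b : ℕ → ℂ := fun n => a n - c n with hb
  have hq0 : (0 : ℝ) ≤ q := Nat.cast_nonneg q
  have hA : ∀ N : ℕ, ‖∑ k ∈ Icc 1 N, a k‖ ≤ 20 * q * √(N : ℝ) := by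
    intro N
    rcases Nat.eq_zero_or_pos N with h0 | h0
    · subst h0; simp
    · have h1 := h q χ hq hχ N h0
      have e : ∑ k ∈ Icc 1 N, a k = ((∑ m ∈ Icc 1 N, tau χ m : ℝ) : ℂ) - N * L1 := by
        simp only [ha]
        rw [Finset.sum_sub_distrib, Finset.sum_const, Nat.card_Icc, nsmul_eq_mul,
          Complex.ofReal_sum]
        simp
      rw [e]
      exact h1
  have hBe : ∀ N : ℕ, ∑ k ∈ Icc 1 N, b k = ∑ k ∈ Icc 1 N, a k - ∑ k ∈ Icc 1 (min N y), a k := by
    intro N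
    have hC : ∑ k ∈ Icc 1 N, c k = ∑ k ∈ Icc 1 (min N y), a k := by
      simp only [hc]
      rw [← Finset.sum_filter]
      refine Finset.sum_congr ?_ fun _ _ => rfl
      ext k
      simp only [Finset.mem_filter, Finset.mem_Icc, le_min_iff]
      tauto
    rw [← hC, ← Finset.sum_sub_distrib]
  have hB : ∀ N : ℕ, ‖∑ k ∈ Icc 1 N, b k‖ ≤ 40 * q * √(N : ℝ) := by
    intro N
    rw [hBe]
    have h1 := norm_sub_le (∑ k ∈ Icc 1 N, a k) (∑ k ∈ Icc 1 (min N y), a k)
    have h2 := hA N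
    have h3 := hA (min N y)
    have h4 : √((min N y : ℕ) : ℝ) ≤ √(N : ℝ) :=
      Real.sqrt_le_sqrt (by exact_mod_cast min_le_left N y)
    have h6 : (0 : ℝ) ≤ 20 * q := by positivity
    have h5 := mul_le_mul_of_nonneg_left h4 h6
    linarith
  have hB0 : ∀ N : ℕ, N ≤ y → ∑ k ∈ Icc 1 N, b k = 0 := by
    intro N hN
    rw [hBe, min_eq_left hN, sub_self]
  have hgrow : (fun n : ℕ => ∑ k ∈ Icc 1 n, b k) =O[atTop] fun n : ℕ => (n : ℝ) ^ (1 / 2 : ℝ) := by
    refine IsBigO.of_bound (40 * q) (Eventually.of_forall fun n => ?_)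
    rw [Real.norm_of_nonneg (by positivity), ← Real.sqrt_eq_rpow]
    exact hB n
  -- the L-series
  have hsa : ∀ s : ℂ, 1 < s.re → LSeriesSummable a s ∧
      LSeries a s = riemannZeta s * χ.LFunction s - L1 * riemannZeta s := by
    intro s hs
    have e : a = (fun n => DirichletCharacter.zetaMul χ n) - L1 • (1 : ℕ → ℂ) := by
      funext n
      simp only [ha, Pi.sub_apply, Pi.smul_apply, Pi.one_apply, smul_eq_mul, mul_one]
      rw [tau_zetaMul hχ]
    have h1 : LSeriesSummable (fun n => DirichletCharacter.zetaMul χ n) s :=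
      χ.LSeriesSummable_zetaMul hs
    have h2 : LSeriesSummable (L1 • (1 : ℕ → ℂ)) s := (LSeriesSummable_one_iff.2 hs).smul L1
    rw [e]
    refine ⟨h1.sub h2, ?_⟩
    rw [LSeries_sub h1 h2, zetaMul_series χ hs, LSeries_smul, LSeries_one_eq_riemannZeta hs]
  have hsb : ∀ s : ℂ, 1 < s.re → LSeriesSummable b s ∧
      LSeries b s = riemannZeta s * χ.LFunction s - L1 * riemannZeta s -
        ∑ k ∈ Icc 1 y, a k * (k : ℂ) ^ (-s) := by
    intro s hs
    have e : b = a - c := by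
      funext n; simp only [hb, Pi.sub_apply]
    obtain ⟨h1, h2⟩ := hsa s hs
    obtain ⟨h3, h4⟩ := fin_series a y s
    rw [e]
    refine ⟨h1.sub h3, ?_⟩
    rw [LSeries_sub h1 h3, h2]
    congr 1
  obtain ⟨hd, hG⟩ := cont (θ := 1 / 2) (by norm_num) (by norm_num) b hgrow
    (fun s hs => (hsb s hs).1)
  set G : ℂ → ℂ := fun s : ℂ => s * mellin (fun t : ℝ => ∑ k ∈ Icc 1 ⌊t⌋₊, b k) (-s) with hGdef
  have hZ := DirichletCharacter.differentiable_LFunctionTrivChar₁ 1
  set Z := DirichletCharacter.LFunctionTrivChar₁ 1 with hZdef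
  have hZv : ∀ z : ℂ, z ≠ 1 → Z z = (z - 1) * riemannZeta z := by
    intro z hz
    rw [hZdef]
    simp only [DirichletCharacter.LFunctionTrivChar₁]
    rw [Function.update_of_ne hz]
    simp [DirichletCharacter.LFunctionTrivChar]
  have hL := DirichletCharacter.differentiable_LFunction hne
  set R : ℂ → ℂ := fun s => Z s * (χ.LFunction s - L1) -
    (s - 1) * ∑ k ∈ Icc 1 y, a k * (k : ℂ) ^ (-s) with hR
  have hRd : Differentiable ℂ R := by
    refine (hZ.mul (hL.sub_const _)).sub ((differentiable_id.sub_const _).mul ?_)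
    refine Differentiable.fun_sum fun k hk => ?_
    rw [Finset.mem_Icc] at hk
    refine (differentiable_const _).mul ?_
    exact differentiable_id.neg.const_cpow (Or.inl (by
      have : k ≠ 0 := by omega
      exact_mod_cast this))
  have heq : Set.EqOn (fun s => (s - 1) * G s) R (HP (1 / 2)) := by
    have h2 : (2 : ℂ) ∈ HP (1 / 2) := by
      show (1 / 2 : ℝ) < (2 : ℂ).re
      norm_num
    refine AnalyticOnNhd.eqOn_of_preconnected_of_eventuallyEq
      (((differentiableOn_id.sub_const _).mul hd).analyticOnNhd (isOpen_HP _))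
      (hRd.differentiableOn.analyticOnNhd (isOpen_HP _)) (preconn_HP _) h2 ?_
    have h3 : {s : ℂ | 1 < s.re} ∈ 𝓝 (2 : ℂ) :=
      (isOpen_lt continuous_const Complex.continuous_re).mem_nhds (by simp)
    filter_upwards [h3] with s hs
    have hs1 : s ≠ 1 := by
      rintro rfl
      simp at hs
    change (s - 1) * G s = R s
    have h4 : G s = LSeries b s := (hG s hs).symm
    rw [h4, (hsb s hs).2, hR]
    simp only
    rw [hZv s hs1]
    ring
  have hβm : (β : ℂ) ∈ HP (1 / 2) := by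
    show (1 / 2 : ℝ) < ((β : ℂ)).re
    rw [Complex.ofReal_re]
    linarith
  have hβ1c : (β : ℂ) ≠ 1 := by
    intro hc
    have : β = 1 := by exact_mod_cast hc
    linarith
  have hval : G β = -(L1 * riemannZeta β + ∑ k ∈ Icc 1 y, a k * (k : ℂ) ^ (-(β : ℂ))) := by
    have h1 : ((β : ℂ) - 1) * G β = R β := heq hβm
    have h2 : R β = ((β : ℂ) - 1) *
        (-(L1 * riemannZeta β + ∑ k ∈ Icc 1 y, a k * (k : ℂ) ^ (-(β : ℂ)))) := by
      rw [hR]
      simp only
      rw [hZv _ hβ1c, hz]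
      ring
    exact mul_left_cancel₀ (sub_ne_zero.2 hβ1c) (h1.trans h2)
  have hgoal : ∑ n ∈ Icc 1 y, (((tau χ n : ℝ) : ℂ) - L1) * (((n : ℝ) ^ (-β) : ℝ) : ℂ) +
      L1 * riemannZeta β = - G β := by
    rw [hval, neg_neg, add_comm]
    congr 1
    refine Finset.sum_congr rfl fun k _ => ?_
    rw [Complex.ofReal_cpow (Nat.cast_nonneg k)]
    simp only [ha]
    push_cast
    rfl
  rw [hgoal, norm_neg]
  -- the bound
  have hy0 : (0 : ℝ) < y := by exact_mod_cast hy
  have hint : mellin (fun t : ℝ => ∑ k ∈ Icc 1 ⌊t⌋₊, b k) (-(β : ℂ)) =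
      ∫ t in Set.Ioi (y : ℝ), (t : ℂ) ^ (-(β : ℂ) - 1) • ∑ k ∈ Icc 1 ⌊t⌋₊, b k := by
    unfold mellin
    refine setIntegral_eq_of_subset_of_forall_sdiff_eq_zero measurableSet_Ioi ?_ ?_
    · intro t ht
      exact hy0.trans ht
    · rintro t ⟨ht1, ht2⟩
      have h3 : ⌊t⌋₊ ≤ y := by
        have h4 : t ≤ y := not_lt.1 ht2
        exact Nat.floor_le_of_le h4
      change (t : ℂ) ^ (-(β : ℂ) - 1) • ∑ k ∈ Icc 1 ⌊t⌋₊, b k = 0
      rw [hB0 _ h3, smul_zero]
  have hexp : -β - 1 / 2 < -1 := by linarith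
  have hnorm : ‖mellin (fun t : ℝ => ∑ k ∈ Icc 1 ⌊t⌋₊, b k) (-(β : ℂ))‖ ≤
      ∫ t in Set.Ioi (y : ℝ), 40 * q * t ^ (-β - 1 / 2) := by
    rw [hint]
    refine norm_integral_le_of_norm_le ((integrableOn_Ioi_rpow_of_lt hexp hy0).const_mul _) ?_
    refine (ae_restrict_iff' measurableSet_Ioi).2 (Eventually.of_forall fun t ht => ?_)
    have ht0 : 0 < t := hy0.trans ht
    rw [norm_smul, Complex.norm_cpow_eq_rpow_re_of_pos ht0]
    have e1 : (-(β : ℂ) - 1).re = -β - 1 := by simp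
    rw [e1]
    have h1 := hB ⌊t⌋₊
    have h2 : √((⌊t⌋₊ : ℕ) : ℝ) ≤ √t := Real.sqrt_le_sqrt (Nat.floor_le ht0.le)
    have h3 : ‖∑ k ∈ Icc 1 ⌊t⌋₊, b k‖ ≤ 40 * q * √t :=
      h1.trans (mul_le_mul_of_nonneg_left h2 (by positivity))
    have h4 : t ^ (-β - 1) * √t = t ^ (-β - 1 / 2) := by
      rw [Real.sqrt_eq_rpow, ← Real.rpow_add ht0]
      congr 1
      ring
    calc t ^ (-β - 1) * ‖∑ k ∈ Icc 1 ⌊t⌋₊, b k‖ ≤ t ^ (-β - 1) * (40 * q * √t) :=
          mul_le_mul_of_nonneg_left h3 (Real.rpow_nonneg ht0.le _)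
      _ = 40 * q * (t ^ (-β - 1) * √t) := by ring
      _ = 40 * q * t ^ (-β - 1 / 2) := by rw [h4]
  have hI : ∫ t in Set.Ioi (y : ℝ), 40 * q * t ^ (-β - 1 / 2) =
      40 * q * ((y : ℝ) ^ (1 / 2 - β) / (β - 1 / 2)) := by
    rw [integral_const_mul, integral_Ioi_rpow_of_lt hexp hy0]
    have e : -β - 1 / 2 + 1 = 1 / 2 - β := by ring
    rw [e]
    have e2 : 1 / 2 - β = -(β - 1 / 2) := by ring
    congr 1
    rw [neg_div, e2, div_neg, neg_neg]
  rw [hI] at hnorm
  have hGn : ‖G β‖ = β * ‖mellin (fun t : ℝ => ∑ k ∈ Icc 1 ⌊t⌋₊, b k) (-(β : ℂ))‖ := by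
    simp only [hGdef]
    rw [norm_mul, Complex.norm_real, Real.norm_of_nonneg (by linarith)]
  rw [hGn]
  have hyp : 0 ≤ (y : ℝ) ^ (1 / 2 - β) := Real.rpow_nonneg hy0.le _
  have hb2 : 0 < β - 1 / 2 := by linarith
  calc β * ‖mellin (fun t : ℝ => ∑ k ∈ Icc 1 ⌊t⌋₊, b k) (-(β : ℂ))‖
      ≤ β * (40 * q * ((y : ℝ) ^ (1 / 2 - β) / (β - 1 / 2))) :=
        mul_le_mul_of_nonneg_left hnorm (by linarith)
    _ = (40 * (β / (β - 1 / 2))) * (q * (y : ℝ) ^ (1 / 2 - β)) := by ring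
    _ ≤ 100 * (q * (y : ℝ) ^ (1 / 2 - β)) := by
        refine mul_le_mul_of_nonneg_right ?_ (mul_nonneg hq0 hyp)
        have : β / (β - 1 / 2) ≤ 5 / 2 := by
          rw [div_le_iff₀ hb2]
          linarith
        linarith
    _ = 100 * q * (y : ℝ) ^ (1 / 2 - β) := by ring

end Pool.Agent.E8helper81.GZ
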